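import Pool.Agent.N905.EX.Rigid
import Pool.Agent.H319R2.Orbit

set_option autoImplicit false

/-!
Divergent trajectories of the 3x+1 map on the integers have exact multiplicative asymptotics, with the
explicit error exponent `0.06`.
-/

namespace Pool.Agent.Results.MP_ff4775_nt.AsymptoticsExplicit

open Finset Filter

/-- The 3x+1 map on the integers. -/
def T (x : ℤ) : ℤ := if x % 2 = 0 then x / 2 else (3 * x + 1) / 2

/-- number of odd terms among the first `k` terms of the trajectory of `n` -/
def odd (k : ℕ) (n : ℤ) : ℕ := ((range k).filter fun j => (T^[j] n) % 2 = 1).card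

theorem T_eq : T = Pool.Agent.H319R2.T := rfl

theorem odd_eq (k : ℕ) (n : ℤ) : odd k n = Pool.Agent.H319R2.od k n := rfl

/-- a trajectory tending to infinity is injective -/
theorem injective_of_tendsto {n : ℤ} (h : Tendsto (fun k => |T^[k] n|) atTop atTop) :
    Function.Injective (fun k => T^[k] n) := by
  have key : ∀ i j : ℕ, i < j → T^[i] n = T^[j] n → False := by
    intro i j hij he
    -- eventually periodic, hence bounded
    have hper : ∀ m : ℕ, T^[i + m * (j - i)] n = T^[i] n := by
      intro m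
      induction m with
      | zero => simp
      | succ m ih =>
        have e : i + (m + 1) * (j - i) = (j - i) + (i + m * (j - i)) := by ring
        rw [e, Function.iterate_add_apply, ih, ← Function.iterate_add_apply,
          Nat.sub_add_cancel hij.le, ← he]
    have h1 := (tendsto_atTop.1 h) (|T^[i] n| + 1)
    obtain ⟨K, hK⟩ := eventually_atTop.1 h1
    have h2 := hK (i + K * (j - i)) (by
      have : 1 ≤ j - i := by omega
      nlinarith)
    rw [hper K] at h2
    linarith
  intro i j he
  by_contra hne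
  rcases lt_or_gt_of_ne hne with h1 | h1
  · exact key i j h1 he
  · exact key j i h1 he.symm

/-- a trajectory tending to infinity avoids `0, ±1, ±2` -/
theorem three_le {n : ℤ} (hinj : Function.Injective (fun k => T^[k] n)) (j : ℕ) :
    (3 : ℝ) ≤ |((T^[j] n : ℤ) : ℝ)| := by
  by_contra hcon
  push Not at hcon
  have h1 : |T^[j] n| < 3 := by exact_mod_cast hcon
  rw [abs_lt] at h1
  set z := T^[j] n with hz
  have e1 : T^[j + 1] n = T z := by rw [Function.iterate_succ_apply']
  have e2 : T^[j + 2] n = T (T z) := by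
    rw [Function.iterate_succ_apply', Function.iterate_succ_apply']
  have k1 : z ≠ T z := by
    intro h
    have := hinj (a₁ := j) (a₂ := j + 1) (by simp only; rw [e1, ← hz]; exact h)
    omega
  have k2 : z ≠ T (T z) := by
    intro h
    have := hinj (a₁ := j) (a₂ := j + 2) (by simp only; rw [e2, ← hz]; exact h)
    omega
  have k3 : T z ≠ T (T z) := by
    intro h
    have := hinj (a₁ := j + 1) (a₂ := j + 2) (by simp only; rw [e1, e2]; exact h)
    omega
  obtain ⟨h2, h3⟩ := h1
  have hcases : z = -2 ∨ z = -1 ∨ z = 0 ∨ z = 1 ∨ z = 2 := by omega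
  rcases hcases with h | h | h | h | h
  · apply k3; rw [h]; decide
  · apply k1; rw [h]; decide
  · apply k1; rw [h]; decide
  · apply k2; rw [h]; decide
  · apply k2; rw [h]; decide

/-- There is `A` such that for every integer `n` with `|T^k n| → ∞`: `2 ^ k T^k(n) / 3 ^ (odd k n)`
converges to a nonzero real number `w`, and for every `k` and every `N ≥ 1` with `N ≤ |T^j n|` for all
`j ≥ k` its logarithmic distance to `w` is at most `A / N ^ 0.06`. -/
theorem result :
    ∃ A : ℝ, ∀ n : ℤ, Tendsto (fun k => |T^[k] n|) atTop atTop →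
        ∃ w : ℝ, w ≠ 0 ∧
          Tendsto (fun k => (2 : ℝ) ^ k * (T^[k] n : ℤ) / 3 ^ (odd k n)) atTop (nhds w) ∧
          ∀ (k : ℕ) (N : ℝ), 1 ≤ N → (∀ j, k ≤ j → N ≤ |((T^[j] n : ℤ) : ℝ)|) →
            abs (Real.log |w| - Real.log (abs ((2 : ℝ) ^ k * (T^[k] n : ℤ) / 3 ^ (odd k n)))) ≤
              A / N ^ (6 / 100 : ℝ) := by
  obtain ⟨η, hηd⟩ : ∃ η : ℝ, η = 94 / 100 := ⟨_, rfl⟩
  have hη : Pool.Agent.N905.EX.η0 < η := by rw [hηd]; exact Pool.Agent.N905.EX.eta0_lt
  have hη1 : η < 1 := by rw [hηd]; norm_num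
  obtain ⟨A, hA0, -, hrig⟩ := Pool.Agent.N905.EX.rigid_ex hη hη1
  have hN6 : ∀ N : ℝ, 1 ≤ N → A / N ^ (6 / 100 : ℝ) = A * N ^ (η - 1) := by
    intro N hN
    rw [hηd, show (94 / 100 - 1 : ℝ) = -(6 / 100) by norm_num, Real.rpow_neg (by linarith)]
    rw [div_eq_mul_inv _ (N ^ (6 / 100 : ℝ))]
  have hA : ∀ (x : ℤ) (l : ℕ), Set.InjOn (fun i => Pool.Agent.H319R2.T^[i] x) (Set.Iio l) →
      ∀ N : ℝ, 1 ≤ N → (∀ j < l, N ≤ |((Pool.Agent.H319R2.T^[j] x : ℤ) : ℝ)|) →
      (∀ j < l, 3 ≤ |((Pool.Agent.H319R2.T^[j] x : ℤ) : ℝ)|) →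
      |Real.log |((Pool.Agent.H319R2.T^[l] x : ℤ) : ℝ)| - Real.log |(x : ℝ)| + l * Real.log 2 -
        Pool.Agent.H319R2.od l x * Real.log 3| ≤ A * N ^ (η - 1) := by
    intro x l hinj N hN hmin h3
    have h := hrig 1 odd_one x l hinj (max N 3) (by
      rw [Int.cast_one, abs_one]
      exact le_trans (by norm_num) (le_max_right _ _)) (fun j hj => max_le (hmin j hj) (h3 j hj))
    rw [Int.cast_one, abs_one, Real.one_rpow, mul_one] at h
    have e : Real.log |((Pool.Agent.H319R2.T^[l] x : ℤ) : ℝ)| - Real.log |(x : ℝ)| + l * Real.log 2 -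
        Pool.Agent.H319R2.od l x * Real.log 3 =
        Real.log |(((Pool.Agent.TH930.EBQ.T 1)^[l] x : ℤ) : ℝ)| - Real.log |(x : ℝ)| -
        (Pool.Agent.H319R2.Tk.od 1 l x * Real.log 3 - l * Real.log 2) := by
      have e1 : Pool.Agent.H319R2.T = Pool.Agent.TH930.EBQ.T 1 := rfl
      have e2 : Pool.Agent.H319R2.od l x = Pool.Agent.H319R2.Tk.od 1 l x := rfl
      rw [e1, e2]; ring
    rw [e]
    refine h.trans (mul_le_mul_of_nonneg_left ?_ hA0.le)
    exact Real.rpow_le_rpow_of_nonpos (by linarith) (le_max_left _ _) (by linarith)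
  refine ⟨A, ?_⟩
  intro n hdiv
  have hinj := injective_of_tendsto hdiv
  have hn0 : n ≠ 0 := by
    intro h0
    have h1 : T^[1] n = T^[0] n := by rw [h0]; rfl
    exact absurd (hinj h1) (by norm_num)
  have hne : ∀ k, T^[k] n ≠ 0 := fun k => by
    rw [T_eq]; exact Pool.Agent.H319R2.iter_ne_zero hn0 k
  -- the logarithmic sequence
  set u : ℕ → ℝ := fun k => (2 : ℝ) ^ k * (T^[k] n : ℤ) / 3 ^ (odd k n) with hu
  set L : ℕ → ℝ := fun k => Real.log |u k| with hL
  have hune : ∀ k, u k ≠ 0 := by
    intro k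
    rw [hu]
    have : ((T^[k] n : ℤ) : ℝ) ≠ 0 := by exact_mod_cast hne k
    positivity
  have hLk : ∀ k, L k = k * Real.log 2 + Real.log |((T^[k] n : ℤ) : ℝ)| - odd k n * Real.log 3 := by
    intro k
    rw [hL, hu]
    simp only
    have h1 : ((T^[k] n : ℤ) : ℝ) ≠ 0 := by exact_mod_cast hne k
    rw [abs_div, abs_mul, abs_of_pos (by positivity : (0 : ℝ) < 2 ^ k),
      abs_of_pos (by positivity : (0 : ℝ) < 3 ^ odd k n),
      Real.log_div (by positivity) (by positivity), Real.log_mul (by positivity) (by positivity),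
      Real.log_pow, Real.log_pow]
  -- additivity of `odd`
  have hoddadd : ∀ k l, odd (k + l) n = odd k n + odd l (T^[k] n) := by
    intro k l
    induction l with
    | zero => simp [odd]
    | succ l ih =>
      have e1 : T^[k + l] n = T^[l] (T^[k] n) := by
        rw [Nat.add_comm, Function.iterate_add_apply]
      rcases Pool.Agent.H319R2.par (T^[l] (T^[k] n)) with h | h
      · have a1 := Pool.Agent.H319R2.od_succ_even (k := k + l) (x := n) (by rw [← T_eq, e1]; exact h)
        have a2 := Pool.Agent.H319R2.od_succ_even (k := l) (x := T^[k] n) h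
        rw [odd_eq, odd_eq, odd_eq] at *
        rw [← add_assoc, a1, a2, ih]
      · have a1 := Pool.Agent.H319R2.od_succ_odd (k := k + l) (x := n) (by rw [← T_eq, e1]; exact h)
        have a2 := Pool.Agent.H319R2.od_succ_odd (k := l) (x := T^[k] n) h
        rw [odd_eq, odd_eq, odd_eq] at *
        rw [← add_assoc, a1, a2, ih]; ring
  -- distance between two terms
  have hdist : ∀ (k l : ℕ) (N : ℝ), 1 ≤ N → (∀ j, k ≤ j → N ≤ |((T^[j] n : ℤ) : ℝ)|) →
      |L (k + l) - L k| ≤ A * N ^ (η - 1) := by
    intro k l N hN hmin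
    have hinj' : Set.InjOn (fun i => Pool.Agent.H319R2.T^[i] (T^[k] n)) (Set.Iio l) := by
      intro i _ j _ hij
      have e : (fun k => T^[k] n) (i + k) = (fun k => T^[k] n) (j + k) := by
        simp only at hij ⊢
        rw [Function.iterate_add_apply, Function.iterate_add_apply]
        exact hij
      have := hinj e
      omega
    have h := hA (T^[k] n) l hinj' N hN (by
      intro j _
      rw [← T_eq, ← Function.iterate_add_apply]
      exact hmin (j + k) (by omega)) (by
      intro j _
      rw [← T_eq, ← Function.iterate_add_apply]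
      exact three_le hinj (j + k))
    rw [hLk, hLk, hoddadd k l]
    have e1 : T^[k + l] n = T^[l] (T^[k] n) := by
      rw [Nat.add_comm, Function.iterate_add_apply]
    rw [e1]
    push_cast
    rw [← T_eq, ← odd_eq] at h
    have e2 : ((k : ℝ) + l) * Real.log 2 + Real.log |((T^[l] (T^[k] n) : ℤ) : ℝ)| -
        ((odd k n : ℝ) + odd l (T^[k] n)) * Real.log 3 -
        (k * Real.log 2 + Real.log |((T^[k] n : ℤ) : ℝ)| - odd k n * Real.log 3) =
        Real.log |((T^[l] (T^[k] n) : ℤ) : ℝ)| - Real.log |((T^[k] n : ℤ) : ℝ)| + l * Real.log 2 -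
          odd l (T^[k] n) * Real.log 3 := by ring
    rw [e2]
    exact h
  -- Cauchy
  have hcauchy : CauchySeq L := by
    rw [Metric.cauchySeq_iff']
    intro ε hε
    -- choose N with A N^(η-1) < ε
    have hlim : Tendsto (fun N : ℝ => A * N ^ (η - 1)) atTop (nhds 0) := by
      have h1 : Tendsto (fun N : ℝ => N ^ (-(1 - η))) atTop (nhds 0) :=
        tendsto_rpow_neg_atTop (by linarith)
      have h2 := h1.const_mul A
      rw [mul_zero] at h2
      refine h2.congr fun N => ?_
      congr 2; ring
    have h3 : ∀ᶠ N : ℝ in atTop, A * N ^ (η - 1) < ε := hlim.eventually (gt_mem_nhds hε)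
    obtain ⟨N0, hN0⟩ := eventually_atTop.1 h3
    set N : ℝ := max N0 1 with hNdef
    have hN1 : 1 ≤ N := le_max_right _ _
    have h4 := (tendsto_atTop.1 hdiv) ⌈N⌉
    obtain ⟨K, hK⟩ := eventually_atTop.1 h4
    refine ⟨K, fun k hk => ?_⟩
    obtain ⟨l, rfl⟩ := Nat.exists_eq_add_of_le hk
    rw [Real.dist_eq]
    refine lt_of_le_of_lt (hdist K l N hN1 ?_) (hN0 N (le_max_left _ _))
    intro j hj
    have h5 := hK j hj
    have h6 : (⌈N⌉ : ℝ) ≤ |((T^[j] n : ℤ) : ℝ)| := by exact_mod_cast h5
    exact (Int.le_ceil N).trans h6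
  obtain ⟨ℓ, hℓ⟩ := cauchySeq_tendsto_of_complete hcauchy
  -- the sign is constant
  have hsign : ∀ k, 0 < T^[k] n ↔ 0 < n := by
    intro k
    induction k with
    | zero => simp
    | succ k ih =>
      rw [Function.iterate_succ_apply', ← ih]
      have hk := hne k
      set z := T^[k] n with hz
      rcases Pool.Agent.H319R2.par z with h | h
      · have := Pool.Agent.H319R2.T_even h
        rw [T_eq]
        constructor <;> intro h1 <;> omega
      · have := Pool.Agent.H319R2.T_odd h
        rw [T_eq]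
        constructor <;> intro h1 <;> omega
  set s : ℝ := if 0 < n then 1 else -1 with hs
  have hus : ∀ k, u k = s * Real.exp (L k) := by
    intro k
    rw [hL]
    simp only
    rw [Real.exp_log (abs_pos.2 (hune k))]
    by_cases h0 : 0 < n
    · have h1 := (hsign k).2 h0
      have h2 : 0 < u k := by
        rw [hu]
        have : (0 : ℝ) < (T^[k] n : ℤ) := by exact_mod_cast h1
        positivity
      rw [hs, if_pos h0, one_mul, abs_of_pos h2]
    · have h1 : T^[k] n < 0 := by
        have := mt (hsign k).1 h0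
        have := hne k
        omega
      have h2 : u k < 0 := by
        rw [hu]
        have h3 : ((T^[k] n : ℤ) : ℝ) < 0 := by exact_mod_cast h1
        simp only
        apply div_neg_of_neg_of_pos _ (by positivity)
        exact mul_neg_of_pos_of_neg (by positivity) h3
      rw [hs, if_neg h0, abs_of_neg h2]; ring
  have hs1 : |s| = 1 := by
    rw [hs]; split_ifs <;> norm_num
  have hsne : s ≠ 0 := by
    intro h0; rw [h0] at hs1; norm_num at hs1
  refine ⟨s * Real.exp ℓ, mul_ne_zero hsne (Real.exp_pos _).ne', ?_, ?_⟩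
  · have h1 : Tendsto (fun k => s * Real.exp (L k)) atTop (nhds (s * Real.exp ℓ)) :=
      ((Real.continuous_exp.tendsto ℓ).comp hℓ).const_mul s
    refine h1.congr fun k => ?_
    rw [← hus k]
  · intro k N hN hmin
    rw [hN6 N hN]
    have e1 : Real.log |s * Real.exp ℓ| = ℓ := by
      rw [abs_mul, hs1, one_mul, abs_of_pos (Real.exp_pos _), Real.log_exp]
    rw [e1]
    have h1 : Tendsto (fun l => |L (k + l) - L k|) atTop (nhds |ℓ - L k|) := by
      have h2 : Tendsto (fun l => L (k + l)) atTop (nhds ℓ) := by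
        have := hℓ.comp (tendsto_add_atTop_nat k)
        refine this.congr fun l => ?_
        simp only [Function.comp]
        rw [add_comm]
      exact (h2.sub_const (L k)).abs
    exact le_of_tendsto h1 (Eventually.of_forall fun l => hdist k l N hN hmin)

end Pool.Agent.Results.MP_ff4775_nt.AsymptoticsExplicit
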