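import Pool.Agent.H723R2.BMGrow

set_option autoImplicit false

/-!
# Growth of the solutions of the Berg-Meinardus equation

The Collatz conjecture holds if and only if the functional equation of Berg and Meinardus has no
holomorphic solution in the unit disc besides the trivial ones `c₀ + c₁ z / (1 - z)`.  The theorem
says that a nontrivial solution is far, in quadratic mean on *every* circle close to the unit circle
(not only along a sequence of radii) from *every* trivial solution, with the order of magnitude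
`1 / (1 - r)` of the trivial solutions themselves; and that every solution with bounded Taylor
coefficients has radial limits of `(1 - r) h` at all points of the unit circle, which vanish except
at the point `1`, where the limit has modulus less than the bound unless the solution is trivial.
The generating function `h = ∑ z^n` of the set of the positive integers with a divergent trajectory is
such a solution, with coefficients `0` and `1`.
-/

namespace Pool.Agent.Results.MP_ff4775_nt.BergMeinardusGrowth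

open Filter Topology

/-- The primitive cube root of unity `e^{2πi/3}`. -/
noncomputable def w : ℂ := Complex.exp (2 * Real.pi * Complex.I / 3)

/-- `h` solves the functional equation of Berg and Meinardus in the open unit disc:
`h(z³) = h(z⁶) + (h(z²) + w h(w z²) + w² h(w² z²)) / (3z)`, written without the denominator. -/
def Solves (h : ℂ → ℂ) : Prop :=
  ∀ z : ℂ, ‖z‖ < 1 →
    3 * z * (h (z ^ 3) - h (z ^ 6)) = h (z ^ 2) + w * h (w * z ^ 2) + w ^ 2 * h (w ^ 2 * z ^ 2)

/-- The point `r e^{iθ}`. -/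
noncomputable def cp (r θ : ℝ) : ℂ := r * Complex.exp (θ * Complex.I)

/-- The `n`-th Taylor coefficient of `h` at `0`. -/
noncomputable def taylor (h : ℂ → ℂ) (n : ℕ) : ℂ := (n.factorial : ℂ)⁻¹ * iteratedDeriv n h 0

/-- **Growth of the solutions of the Berg-Meinardus equation.** -/
theorem result (h : ℂ → ℂ) (hd : DifferentiableOn ℂ h (Metric.ball 0 1)) (hfe : Solves h) :
    (∀ m : ℂ, (∃ c₀ : ℂ, ∀ z : ℂ, ‖z‖ < 1 → h z = c₀ + m * (z / (1 - z))) ∨
      ∃ κ : ℝ, 0 < κ ∧ ∀ᶠ r : ℝ in 𝓝[<] (1 : ℝ),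
        κ ≤ (1 - r) * ∫ θ in (0 : ℝ)..(2 * Real.pi),
          ‖h (cp r θ) - m * (cp r θ / (1 - cp r θ))‖ ^ 2) ∧
    (∀ M : ℝ, (∀ n : ℕ, 1 ≤ n → ‖taylor h n‖ ≤ M) →
      ∃ m : ℂ, Tendsto (fun r : ℝ => (1 - (r : ℂ)) * h r) (𝓝[<] (1 : ℝ)) (𝓝 m) ∧ ‖m‖ ≤ M ∧
        (‖m‖ = M → ∃ c₀ : ℂ, ∀ z : ℂ, ‖z‖ < 1 → h z = c₀ + m * (z / (1 - z))) ∧
        ∀ v : ℂ, ‖v‖ = 1 → v ≠ 1 →
          Tendsto (fun r : ℝ => (1 - (r : ℂ)) * h ((r : ℂ) * v)) (𝓝[<] (1 : ℝ)) (𝓝 0)) := by
  have hc : Pool.Agent.H397R2.CInv (Pool.Agent.H397R2.tc h) :=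
    Pool.Agent.H397R2.cinv_of_bm (fun z hz => Pool.Agent.H397R2.hasSum_tc hd hz) hfe
  exact ⟨fun m => Pool.Agent.H723R2.BMGrow.part1 hd hc m,
    fun _ hM => Pool.Agent.H723R2.BMGrow.part2 hd hc hM⟩

end Pool.Agent.Results.MP_ff4775_nt.BergMeinardusGrowth
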