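import Pool.Agent.N481.MV.Unif
import Pool.Agent.N905.EX.Loc

/-!
# Divergent trajectories of the `3x+1` map keep away from the values of multiplicative functions

Let `f` be a positive multiplicative function of at most polynomial growth such that `f p ≤ M p` for the large primes `p`,
with different values at different large primes; for example Euler's function or the sum of the divisors. Let `α > 0`,
`d ≥ 1` and `κ ≥ 0` with `0.94 d + κ < 1`. There is `N₀` such that for EVERY trajectory of the `3x+1` map on the integers,
EVERY real number `y` and every `N ≥ N₀`, for all `m ≤ N` but `N / (log N)^U`: no element of the trajectory has a distance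
from `y` within `f(m)^κ` of `α f(m)^d`. So, with `y = 0`, a divergent trajectory keeps away from `α f(m)^d` and `- α f(m)^d`,
and the differences of an element of it and all other elements do so; all of this uniformly in the trajectory and in the
element.

More generally `G (f m)` takes the place of `α f(m)^d`, where `G` is any function with steps bounded below by a positive
constant and growth at most `v^d`. The values of `f` are in general taken with very large multiplicities, so that this does
not follow from the number of the elements of a trajectory in an interval.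

Proof. Write `m = k w` where `k` is composed of the primes `≤ z = N^(1 / J)`, `J` about `log log N`. For most `m` one has
`k ≤ N^η`, and `w` is a product of at most `J` different primes. So `f(w)` is taken at most `(1 + τ)^J` times, `τ` its number of
divisors, which is at most `N^o(1)` on average, even in mean square: and a trajectory has only `A R^0.94` elements in an
interval of length `R`, uniformly (`Pool.Agent.N905.EX.Loc` of helper905, the explicit form of a starting theorem).
-/

set_option autoImplicit false

namespace Pool.Agent.Results.MP_ff4775_nt.MultiplicativeValues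

open Filter
open Pool.Agent.N733.TG (LM Expanding lm_totient lm_sigma expanding_pow)

/-- The `3x+1` map on the integers. -/
def T (x : ℤ) : ℤ := if x % 2 = 0 then x / 2 else (3 * x + 1) / 2

/-- the trajectory of `x` -/
def Trajectory (x : ℤ) : Set ℤ := {z : ℤ | ∃ n : ℕ, T^[n] x = z}

theorem count : ∃ A : ℝ, ∀ (x : ℤ) (y R : ℝ), 1 ≤ R →
    {z : ℤ | z ∈ Trajectory x ∧ |(z : ℝ) - y| ≤ R}.Finite ∧
      (Set.ncard {z : ℤ | z ∈ Trajectory x ∧ |(z : ℝ) - y| ≤ R} : ℝ) ≤ A * R ^ (94 / 100 : ℝ) := by
  classical
  obtain ⟨A, -, h⟩ := Pool.Agent.N905.EX.sparse_ex (η := 94 / 100) Pool.Agent.N905.EX.eta0_lt (by norm_num)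
  rw [show (1 : ℝ) - 94 / 100 = 6 / 100 by norm_num] at h
  refine ⟨A, ?_⟩
  intro x y R hR
  set S : Set ℤ := {z : ℤ | z ∈ Trajectory x ∧ |(z : ℝ) - y| ≤ R} with hS
  have hfin : S.Finite := by
    apply (Set.finite_Icc (-⌈R - y⌉) ⌈R + y⌉).subset
    intro z hz
    have h := hz.2
    rw [abs_le] at h
    have h1 := Int.le_ceil (R - y)
    have h2 := Int.le_ceil (R + y)
    constructor
    · have : (-(⌈R - y⌉ : ℝ)) ≤ z := by linarith [h.1]
      exact_mod_cast this
    · have : (z : ℝ) ≤ ⌈R + y⌉ := by linarith [h.2]
      exact_mod_cast this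
  refine ⟨hfin, ?_⟩
  rw [Set.ncard_eq_toFinset_card S hfin]
  have hF : ∀ z ∈ hfin.toFinset, (∃ n : ℕ, T^[n] x = z) ∧ |(z : ℝ) - y| ≤ R := by
    intro z hz
    rw [Set.Finite.mem_toFinset] at hz
    exact hz
  obtain ⟨r, hinj, hr⟩ := Pool.Agent.H319R2.G.finite_subset_path T x hfin.toFinset
    (fun z hz => (hF z hz).1)
  have h1 := h 1 odd_one _ (Pool.Agent.H319R2.G.tame_path T x r hinj) y R hR hfin.toFinset (by
    intro z hz
    obtain ⟨i, hi, he⟩ := hr z hz
    exact ⟨⟨i, hi, he⟩, (hF z hz).2⟩)
  rwa [Int.cast_one, abs_one, Real.one_rpow, mul_one] at h1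

/-- **Trajectories and the values of multiplicative functions.** Let `f` be multiplicative and positive, of at most
polynomial growth, with `f p ≤ M p` at the large primes, and injective there. Let `G` have steps `≥ const > 0` and growth at
most `v^d`. Let `κ ≥ 0`, `0.94 d + κ < 1` and `U` a natural number. There is `N₀` such that for ALL trajectories of the
`3x+1` map on the integers, ALL real `y` and all `N ≥ N₀`: for all `m ≤ N` but `N / (log N)^U`, no element `z` of the
trajectory satisfies `||z - y| - G (f m)| ≤ f(m)^κ`. Euler's function and the sum of the divisors are examples of such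
functions `f`, and `α v^d` with `α > 0`, `d ≥ 1` is an example of `G`. -/
theorem result :
    (∀ f : ℕ → ℕ, LM f → ∀ (G : ℕ → ℝ) (d : ℝ), Expanding G d → ∀ κ : ℝ, 0 ≤ κ → 94 / 100 * d + κ < 1 →
      ∀ U : ℕ, ∃ N₀ : ℕ, ∀ (x : ℤ) (y : ℝ) (N : ℕ), N₀ ≤ N →
        ({m : ℕ | 1 ≤ m ∧ m ≤ N ∧ ∃ z ∈ Trajectory x, |(|(z : ℝ) - y| - G (f m))| ≤ (f m : ℝ) ^ κ}.ncard : ℝ) ≤
          N / Real.log N ^ U) ∧
    (LM Nat.totient ∧ LM (fun m => ∑ d ∈ m.divisors, d)) ∧
    ∀ α d : ℝ, 0 < α → 1 ≤ d → Expanding (fun v => α * (v : ℝ) ^ d) d := by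
  refine ⟨fun f hf G d hG κ hκ h1 U => ?_, ⟨lm_totient, lm_sigma⟩, fun α d hα hd => expanding_pow hα hd⟩
  obtain ⟨A, hA⟩ := count
  obtain ⟨N₀, hN₀⟩ := Pool.Agent.N481.MV.keep_unif (T := ℤ) hf hG (s := 94 / 100) (κ := κ) (by norm_num) hκ
    (by linarith) A U
  exact ⟨N₀, fun x y N hN => hN₀ (Trajectory x) (fun z => |(z : ℝ) - y|) (fun X hX => hA x y X hX) N hN⟩

end Pool.Agent.Results.MP_ff4775_nt.MultiplicativeValues
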