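import Pool.Agent.N671.DA.Win
import Pool.Agent.N905.EX.Loc

/-!
# Divergent trajectories of the `3x+1` map keep away from functions of the denominators of good approximations

Let `α_1, …, α_m` be real numbers. We consider the natural numbers `q` with `‖q α_j - β_j‖ ≤ c q^(-τ)` for all `j`, `‖x‖` the
distance to the nearest integer; for `β = 0`, `c = 1`, `τ = 1 / m` these include the denominators of all best simultaneous
approximations (the denominators of the convergents for `m = 1`). They form a very sparse sequence, with gaps growing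
exponentially for almost all `α` if `τ = 1 / m`. Let `G` have steps bounded below by a positive constant and growth at most
`v^d`, for example `G(v) = a v^d`. There is a set of Hausdorff dimension at most `(m + 0.94 d + κ) / (1 + τ)` such that for all
`α` in `ℝ^m` outside this set, all `c`, EVERY trajectory of the `3x+1` map on the integers and EVERY integer `y`: for all but
finitely many such `q` no element of the trajectory has a distance from `y` within `q^κ` of `G q`. So, with `y = 0`, a divergent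
trajectory keeps away from `G q` and `- G q`, and so do the differences of an element of it and all other elements. For
`τ = 1 / m` the bound is less than `m` if `0.94 d + κ < 1`; and so the statement holds for almost all `α`.

Proof. A trajectory has only `A R^0.94` elements in an interval of length `R` (`Pool.Agent.N905.EX.Loc` of helper905, the
explicit form of a starting theorem), and so the `q` such that `G q` is near the distance of one of them from `y` form a set
with `O(X^(0.94 d + κ))` elements up to `X`; and the `α` with `‖q α_j - β_j‖ ≤ c q^(-τ)` for all `j` and infinitely many `q` of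
such a set are covered by few small cubes (`Pool.Agent.N671.DA`, helper671). There are countably many trajectories and `y`.
-/

set_option autoImplicit false

namespace Pool.Agent.Results.MP_ff4775_nt.SimultaneousApproximations

open Pool.Agent.N671.DA (Solves Expanding expanding_pow approx_windows)

/-- The `3x+1` map on the integers. -/
def T (x : ℤ) : ℤ := if x % 2 = 0 then x / 2 else (3 * x + 1) / 2

/-- the trajectory of `x` -/
def Trajectory (x : ℤ) : Set ℤ := {z : ℤ | ∃ n : ℕ, T^[n] x = z}

/-- the number of the elements of a trajectory in an interval (as in `MultiplicativeValues` of helper481) -/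
theorem count : ∃ A : ℝ, ∀ (x : ℤ) (y R : ℝ), 1 ≤ R →
    {z : ℤ | z ∈ Trajectory x ∧ |(z : ℝ) - y| ≤ R}.Finite ∧
      (Set.ncard {z : ℤ | z ∈ Trajectory x ∧ |(z : ℝ) - y| ≤ R} : ℝ) ≤ A * R ^ (94 / 100 : ℝ) := by
  classical
  obtain ⟨A, -, h⟩ := Pool.Agent.N905.EX.sparse_ex (η := 94 / 100) Pool.Agent.N905.EX.eta0_lt (by norm_num)
  rw [show (1 : ℝ) - 94 / 100 = 6 / 100 by norm_num] at h
  refine ⟨A, ?_⟩
  intro x y R hR
  set S : Set ℤ := {z : ℤ | z ∈ Trajectory x ∧ |(z : ℝ) - y| ≤ R} with hS
  have hfin : S.Finite := by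
    apply (Set.finite_Icc (-⌈R - y⌉) ⌈R + y⌉).subset
    intro z hz
    have h := hz.2
    rw [abs_le] at h
    have h1 := Int.le_ceil (R - y)
    have h2 := Int.le_ceil (R + y)
    constructor
    · have : (-(⌈R - y⌉ : ℝ)) ≤ z := by linarith [h.1]
      exact_mod_cast this
    · have : (z : ℝ) ≤ ⌈R + y⌉ := by linarith [h.2]
      exact_mod_cast this
  refine ⟨hfin, ?_⟩
  rw [Set.ncard_eq_toFinset_card S hfin]
  have hF : ∀ z ∈ hfin.toFinset, (∃ n : ℕ, T^[n] x = z) ∧ |(z : ℝ) - y| ≤ R := by
    intro z hz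
    rw [Set.Finite.mem_toFinset] at hz
    exact hz
  obtain ⟨r, hinj, hr⟩ := Pool.Agent.H319R2.G.finite_subset_path T x hfin.toFinset
    (fun z hz => (hF z hz).1)
  have h1 := h 1 odd_one _ (Pool.Agent.H319R2.G.tame_path T x r hinj) y R hR hfin.toFinset (by
    intro z hz
    obtain ⟨i, hi, he⟩ := hr z hz
    exact ⟨⟨i, hi, he⟩, (hF z hz).2⟩)
  rwa [Int.cast_one, abs_one, Real.one_rpow, mul_one] at h1

/-- **Trajectories and the denominators of good approximations.** Let `G` have steps `≥ const > 0` and growth at most `v^d`.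
Let `0 ≤ κ ≤ 1`, `β` in `ℝ^m` and `τ > 0`. For all `α` in `ℝ^m` outside a set of Hausdorff dimension at most
`(m + 0.94 d + κ) / (1 + τ)`, all `c`, ALL trajectories of the `3x+1` map on the integers and ALL integers `y`: for all large
`q` with `‖q α_j - β_j‖ ≤ c q^(-τ)` for all `j`, no element `z` of the trajectory satisfies `||z - y| - G q| ≤ q^κ`. The
functions `a v^d` with `a > 0`, `d ≥ 1` are examples of `G`. -/
theorem result :
    (∀ (G : ℕ → ℝ) (d : ℝ), Expanding G d → ∀ κ : ℝ, 0 ≤ κ → κ ≤ 1 →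
      ∀ (m : ℕ) (β : Fin m → ℝ) (τ : ℝ), 0 < τ →
      ∃ E : Set (Fin m → ℝ), dimH E ≤ ENNReal.ofReal ((m + (d * (94 / 100) + κ)) / (1 + τ)) ∧
        ∀ α, α ∉ E → ∀ (c : ℝ) (x y : ℤ), ∃ Q : ℕ, ∀ q : ℕ, Q ≤ q → Solves α β q (c * (q : ℝ) ^ (-τ)) →
          ∀ z ∈ Trajectory x, ¬ |(|(z : ℝ) - y| - G q)| ≤ (q : ℝ) ^ κ) ∧
    ∀ a d : ℝ, 0 < a → 1 ≤ d → Expanding (fun v => a * (v : ℝ) ^ d) d := by
  refine ⟨fun G d hG κ hκ hκ1 m β τ hτ => ?_, fun a d ha hd => expanding_pow ha hd⟩
  obtain ⟨A, hA⟩ := count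
  have hA0 : 0 ≤ A := by
    have := (hA 0 0 1 le_rfl).2
    rw [Real.one_rpow, mul_one] at this
    exact le_trans (Nat.cast_nonneg _) this
  have key : ∀ p : ℤ × ℤ, ∃ E : Set (Fin m → ℝ),
      dimH E ≤ ENNReal.ofReal ((m + (d * (94 / 100) + κ)) / (1 + τ)) ∧
        ∀ α, α ∉ E → ∀ c : ℝ, ∃ Q : ℕ, ∀ q : ℕ, Q ≤ q → Solves α β q (c * (q : ℝ) ^ (-τ)) →
          ∀ z ∈ Trajectory p.1, ¬ |(|(z : ℝ) - p.2| - G q)| ≤ (q : ℝ) ^ κ := fun p =>
    approx_windows (Trajectory p.1) (fun z : ℤ => |(z : ℝ) - p.2|) hG (s := 94 / 100) (κ := κ) (by norm_num) hκ hκ1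
      (fun ε hε => ⟨A, fun X hX => ⟨(hA p.1 p.2 X hX).1, (hA p.1 p.2 X hX).2.trans
        (mul_le_mul_of_nonneg_left (Real.rpow_le_rpow_of_exponent_le hX (by linarith)) hA0)⟩⟩) β hτ
  choose E hE hE2 using key
  refine ⟨⋃ p, E p, ?_, fun α hα c x y => ?_⟩
  · rw [dimH_iUnion]
    exact iSup_le hE
  · have h1 : α ∉ E (x, y) := fun h => hα (Set.mem_iUnion.2 ⟨(x, y), h⟩)
    exact hE2 (x, y) α h1 c

end Pool.Agent.Results.MP_ff4775_nt.SimultaneousApproximations
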